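import Pool.Agent.H56.GI.Def
set_option autoImplicit false

/-!
# H56/GI/Bp2: the Baire property for `gen2`

Proof. For every `q` the point `(q, a.2)` of `G`: `G.bp (q, a.2) A hA`. For every `n` the set
`C n = {q | G.gen (q, a.2) (z ∈ G.H n (q, a.2) → z ∈ A)}` is measurable (`G.cq` with `π q = (q, a.2)`,
`G.mH n`), so `T.bp p (C n)` gives for generic `q` in `C n` a `k` with `q ∈ T.H k p` and
`T.gen p (q' ∈ T.H k p → q' ∈ C n)`. `T.nat` over `n`; then for generic `q` and generic `y` in the class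
of `(q, a.2)` (so `y.1 = q`) with `y ∈ A`: take `n` from `G.bp`, then `q ∈ C n`, take `k`, and
`j = Nat.pair k n` (`Nat.unpair_pair`). In `gen2 ... (z ∈ H2 j a → z ∈ A)`: for generic `q'`, for generic
`z` in the class of `(q', a.2)`, `z.1 = q'`.
-/

namespace Pool.Agent.H56.GI

open Set Topology TopologicalSpace Pool.Agent.H93.EO Pool.Agent.H56.MG

variable {P X : Type} [MeasurableSpace P] [MeasurableSpace X] {F : Setoid X}

theorem bp2 [StandardBorelSpace P] [StandardBorelSpace X] (G : PG0 (P × X) (fun a b => FP P F a b))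
    (T : PG0 P (fun _ _ => True)) (p : P) (a : P × X) (A : Set (P × X)) (hA : MeasurableSet A) :
    gen2 G T p a fun y => y ∈ A → ∃ n, y ∈ H2 G T p n a ∧
      gen2 G T p a fun z => z ∈ H2 G T p n a → z ∈ A := by
  have hC : ∀ n : ℕ, MeasurableSet
      {q : P | G.gen (q, a.2) fun z => z ∈ G.H n (q, a.2) → z ∈ A} := by
    intro n
    have hπ : Measurable fun q : P => (q, a.2) := measurable_id.prodMk measurable_const
    refine G.cq P (fun q => (q, a.2)) hπ (fun q z => z ∈ G.H n (q, a.2) → z ∈ A) ?_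
    have h1 : MeasurableSet {r : P × (P × X) | r.2 ∈ G.H n (r.1, a.2)} :=
      ((hπ.comp measurable_fst).prodMk measurable_snd) (G.mH n)
    have h2 : MeasurableSet {r : P × (P × X) | r.2 ∈ A} := measurable_snd hA
    have h3 : {r : P × (P × X) | r.2 ∈ G.H n (r.1, a.2) → r.2 ∈ A} =
        {r : P × (P × X) | r.2 ∈ G.H n (r.1, a.2)}ᶜ ∪ {r : P × (P × X) | r.2 ∈ A} := by
      ext r
      simp only [mem_setOf_eq, mem_union, mem_compl_iff]
      tauto
    rw [h3]
    exact h1.compl.union h2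
  have hT := T.nat p _ fun n => T.bp p _ (hC n)
  refine T.mono p _ _ (fun q _ hq => ?_) hT
  refine G.mono (q, a.2) _ _ (fun y hy hbp hyA => ?_) (G.bp (q, a.2) A hA)
  obtain ⟨n, hyn, hgen⟩ := hbp hyA
  obtain ⟨k, hqk, hTk⟩ := hq n hgen
  have hqy : q = y.1 := hy.1
  refine ⟨Nat.pair k n, ?_, ?_⟩
  · simp only [H2, Nat.unpair_pair, mem_setOf_eq]
    exact ⟨hqy ▸ hqk, hqy ▸ hyn⟩
  · refine T.mono p _ _ (fun q' _ hq' => ?_) hTk
    by_cases h : q' ∈ T.H k p
    · refine G.mono (q', a.2) _ _ (fun z hz hzz hH => ?_) (hq' h)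
      have hqz : q' = z.1 := hz.1
      simp only [H2, Nat.unpair_pair, mem_setOf_eq] at hH
      apply hzz
      rw [hqz]
      exact hH.2
    · refine G.mono (q', a.2) _ _ (fun z hz _ hH => ?_) (G.bp (q', a.2) A hA)
      have hqz : q' = z.1 := hz.1
      simp only [H2, Nat.unpair_pair, mem_setOf_eq] at hH
      exact absurd (hqz ▸ hH.1) h

end Pool.Agent.H56.GI
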