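import Pool.Agent.H56.GI.Def
set_option autoImplicit false

/-!
# H56/GI/Sel2: measurable choice for `gen2`

Proof. Let `C = {(a, q) : (P × X) × P | ¬ G.gen (q, a.2) (y ∉ B_a)}`, measurable by `G.cq`. If
`¬ gen2 (y ∉ B_a)` then for non-generic-many `q` (`¬ T.gen p`) `(a, q) ∈ C`. Choice of `q`:
`hT` gives a measurable `u : P × X → P` with `(a, u a) ∈ C` whenever `¬ T.gen p (q ∉ C_a)`.
Then a `y` in `B_a` with `G` at the point `(u a, a.2)`: `hG` with the parameter `a`. So
`s a = v a (u a)`.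
-/

namespace Pool.Agent.H56.GI

open Set Topology TopologicalSpace Pool.Agent.H93.EO Pool.Agent.H56.MG

variable {P X : Type} [MeasurableSpace P] [MeasurableSpace X] {F : Setoid X}

/-- choice with parameters -/
def Ch {Y : Type} [MeasurableSpace Y] {E : Y → Y → Prop} (G : PG0 Y E) : Prop :=
  ∀ (Q : Type) (_ : MeasurableSpace Q) (_ : StandardBorelSpace Q) (π : Q → Y), Measurable π →
    ∀ B : Set (Q × Y), MeasurableSet B →
      ∃ s : Q → Y, Measurable s ∧ ∀ r, (¬ G.gen (π r) fun y => (r, y) ∉ B) → (r, s r) ∈ B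

theorem sel2 [StandardBorelSpace P] [StandardBorelSpace X] (G : PG0 (P × X) (fun a b => FP P F a b))
    (T : PG0 P (fun _ _ => True)) (hG : Ch G) (hT : Ch T) (p : P)
    (B : Set ((P × X) × (P × X))) (hB : MeasurableSet B) :
    ∃ s : P × X → P × X, Measurable s ∧ ∀ a, (¬ gen2 G T p a fun y => (a, y) ∉ B) → (a, s a) ∈ B := by
  obtain ⟨C, hCdef⟩ : ∃ C : Set ((P × X) × P), C = {r | ¬ G.gen (r.2, r.1.2) fun y => (r.1, y) ∉ B} :=
    ⟨_, rfl⟩
  have hπ : Measurable fun r : (P × X) × P => (r.2, r.1.2) :=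
    measurable_snd.prodMk (measurable_snd.comp measurable_fst)
  have hA : MeasurableSet {q : ((P × X) × P) × (P × X) | (q.1.1, q.2) ∉ B} := by
    have h1 : Measurable fun q : ((P × X) × P) × (P × X) => (q.1.1, q.2) :=
      (measurable_fst.comp measurable_fst).prodMk measurable_snd
    exact h1 hB.compl
  have hC : MeasurableSet C := by
    rw [hCdef]
    exact (G.cq ((P × X) × P) (fun r => (r.2, r.1.2)) hπ (fun r y => (r.1, y) ∉ B) hA).compl
  obtain ⟨u, hu, hu2⟩ := hT (P × X) inferInstance inferInstance (fun _ => p) measurable_const C hC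
  obtain ⟨s, hs, hs2⟩ := hG (P × X) inferInstance inferInstance (fun a => (u a, a.2))
    (hu.prodMk measurable_snd) B hB
  refine ⟨s, hs, fun a ha => hs2 a ?_⟩
  have h1 : ¬ T.gen p fun q => (a, q) ∉ C := by
    intro h2
    refine ha (T.mono p _ _ ?_ h2)
    intro q _ hq
    by_contra h3
    apply hq
    rw [hCdef]
    exact h3
  have h2 := hu2 a h1
  rw [hCdef] at h2
  exact h2

end Pool.Agent.H56.GI
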