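import Pool.Agent.H56.GI.Pg0
import Pool.Agent.H56.GI.Sel2
set_option autoImplicit false

/-!
# H56/GI/Ch: choice with parameters

Let `D : Dat0 X F`, `Q` standard Borel, `π : Q → X` measurable. `D` gives a `Dat0` on `Q × X` with the
equivalence relation `FQ Q F`: `(r, x) ~ (r', x')` iff `r = r'` and `F x x'`; the topology of the point
`(r, x)` on its class `{r} × [x]` is the one of `x` (homeomorphism `y ↦ (r, y)`), `O n (r, x) =
{z | z.2 ∈ D.O n x}`, `e i (r, x) = (r, D.e i x)`. `exists_pg0` for it gives `G'` with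
`G'.gen (r, x) P ↔ G.gen x (fun y => P (r, y))`, and `G'.sel` for `{((r, x), (r', y)) | (r, y) ∈ B}` gives
the choice: `s r = (s' (r, π r)).2`.

(Alternative: any other proof, e.g. adapt `lsu` in H93/EO/Lsu.lean.)
-/

namespace Pool.Agent.H56.GI

open Set Topology TopologicalSpace Pool.Agent.H93.EO Pool.Agent.H56.MG

variable {X : Type} [MeasurableSpace X] {F : Setoid X}

/-- the class of `a` in `Q × X` is the class of `a.2` -/
private def chEq {Q : Type} (a : Q × X) : {z : Q × X // FP Q F a z} ≃ {y : X // F a.2 y} where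
  toFun z := ⟨z.1.2, z.2.2⟩
  invFun y := ⟨(a.1, y.1), rfl, y.2⟩
  left_inv z := by
    apply Subtype.ext
    exact Prod.ext z.2.1 rfl
  right_inv y := rfl

private noncomputable def chTop {Q : Type} (D : Dat0 X F) (a : Q × X) :
    TopologicalSpace {z : Q × X // FP Q F a z} :=
  TopologicalSpace.induced (chEq a) (D.σ a.2)

private noncomputable def chHom {Q : Type} (D : Dat0 X F) (a : Q × X) :
    @Homeomorph {z : Q × X // FP Q F a z} {y : X // F a.2 y} (chTop D a) (D.σ a.2) :=
  letI := chTop D a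
  letI := D.σ a.2
  (chEq a).toHomeomorphOfIsInducing ⟨rfl⟩

private noncomputable def chDat (Q : Type) [MeasurableSpace Q] [StandardBorelSpace Q] (D : Dat0 X F) :
    Dat0 (Q × X) (FP Q F) where
  σ := chTop D
  t0 a :=
    letI := chTop D a
    letI := D.σ a.2
    haveI := D.t0 a.2
    (chHom D a).symm.t0Space
  baire a :=
    letI := chTop D a
    letI := D.σ a.2
    haveI := D.baire a.2
    (chHom D a).isOpenEmbedding.baireSpace
  O n a := {z | z.2 ∈ D.O n a.2}
  e i a := (a.1, D.e i a.2)
  mF := by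
    have h1 : MeasurableSet {p : (Q × X) × (Q × X) | p.1.1 = p.2.1} :=
      measurableSet_eq_fun (measurable_fst.comp measurable_fst) (measurable_fst.comp measurable_snd)
    have h2 : Measurable fun p : (Q × X) × (Q × X) => (p.1.2, p.2.2) :=
      (measurable_snd.comp measurable_fst).prodMk (measurable_snd.comp measurable_snd)
    exact h1.inter (h2 D.mF)
  mO n := by
    have h2 : Measurable fun p : (Q × X) × (Q × X) => (p.1.2, p.2.2) :=
      (measurable_snd.comp measurable_fst).prodMk (measurable_snd.comp measurable_snd)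
    exact h2 (D.mO n)
  base a := by
    letI := chTop D a
    letI := D.σ a.2
    have h1 : IsTopologicalBasis (range fun n => {y : {y : X // F a.2 y} | y.1 ∈ D.O n a.2}) := D.base a.2
    have h2 := h1.isInducing (chHom D a).isInducing
    have e : (range fun n => {y : {z : Q × X // FP Q F a z} | y.1 ∈ ({z | z.2 ∈ D.O n a.2} : Set (Q × X))}) =
        preimage (chHom D a) '' (range fun n => {y : {y : X // F a.2 y} | y.1 ∈ D.O n a.2}) := by
      rw [← range_comp]
      rfl
    rw [e]
    exact h2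
  me i := measurable_fst.prodMk ((D.me i).comp measurable_snd)
  dense a := by
    letI := chTop D a
    letI := D.σ a.2
    have h1 := (D.dense a.2).preimage (chHom D a).isOpenMap
    refine h1.mono ?_
    rintro y ⟨i, hi⟩
    refine ⟨i, ?_⟩
    have h4 : y.1.2 = D.e i a.2 := hi
    exact Prod.ext y.2.1.symm h4

private theorem chGen (Q : Type) [MeasurableSpace Q] [StandardBorelSpace Q] (D : Dat0 X F) (a : Q × X)
    (P : Q × X → Prop) :
    {z : {z : Q × X // FP Q F a z} | P z.1} ∈ @residual _ ((chDat Q D).σ a) ↔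
      {y : {y : X // F a.2 y} | P (a.1, y.1)} ∈ @residual _ (D.σ a.2) := by
  change {z : {z : Q × X // FP Q F a z} | P z.1} ∈ @residual _ (chTop D a) ↔ _
  letI := chTop D a
  letI := D.σ a.2
  rw [← (chHom D a).residual_map_eq, Filter.mem_map]
  have e : {z : {z : Q × X // FP Q F a z} | P z.1} = (chHom D a) ⁻¹' {y : {y : X // F a.2 y} | P (a.1, y.1)} := by
    ext z
    have h3 : (chEq a).symm (chEq a z) = z := (chEq a).left_inv z
    change P z.1 ↔ P ((chEq a).symm (chEq a z)).1
    rw [h3]
  rw [e]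

theorem ch_of [StandardBorelSpace X] (D : Dat0 X F) (G : PG0 X (fun x y => F x y))
    (hG : ∀ (x : X) (P : X → Prop), G.gen x P ↔ {y : {y : X // F x y} | P y.1} ∈ @residual _ (D.σ x)) :
    Ch G := by
  intro Q _ _ π hπ B hB
  obtain ⟨G', hG'⟩ := exists_pg0 (chDat Q D)
  have hgen : ∀ (a : Q × X) (P : Q × X → Prop), G'.gen a P ↔ G.gen a.2 fun y => P (a.1, y) := fun a P =>
    (hG' a P).trans ((chGen Q D a P).trans (hG a.2 fun y => P (a.1, y)).symm)
  let B' : Set ((Q × X) × (Q × X)) := {p | p.1.1 = p.2.1 ∧ p.2 ∈ B}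
  have hB' : MeasurableSet B' := by
    have h1 : MeasurableSet {p : (Q × X) × (Q × X) | p.1.1 = p.2.1} :=
      measurableSet_eq_fun (measurable_fst.comp measurable_fst) (measurable_fst.comp measurable_snd)
    exact h1.inter (measurable_snd hB)
  obtain ⟨s', hs', h⟩ := G'.sel B' hB'
  refine ⟨fun r => (s' (r, π r)).2, measurable_snd.comp (hs'.comp (measurable_id.prodMk hπ)), ?_⟩
  intro r hr
  have h1 : ¬ G'.gen (r, π r) fun z => ((r, π r), z) ∉ B' := by
    intro h2
    rw [hgen] at h2
    refine hr (G.mono _ _ _ ?_ h2)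
    intro y _ h3 h4
    exact h3 ⟨rfl, h4⟩
  obtain ⟨h2, h3⟩ := h _ h1
  have h4 : r = (s' (r, π r)).1 := h2
  have h5 : (r, (s' (r, π r)).2) = s' (r, π r) := Prod.ext h4 rfl
  show (r, (s' (r, π r)).2) ∈ B
  rw [h5]
  exact h3

end Pool.Agent.H56.GI
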