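import Pool.Agent.H56.GI.Def
set_option autoImplicit false

/-!
# H56/GI/Coh: the category structure of a Polish space

One class. The topology on `{y : P // True}` is the subspace topology (homeomorphic to `P`), the base
`TopologicalSpace.countableBasis P` enumerated by `ℕ` (with repetitions; `∅` may be used as filler), the dense
sequence `TopologicalSpace.denseSeq P`. Polish spaces are T0, Baire.
-/

namespace Pool.Agent.H56.GI

open Set Topology TopologicalSpace Pool.Agent.H93.EO Pool.Agent.H56.MG

/-- one class -/
def TT (P : Type) : Setoid P := ⟨fun _ _ => True, ⟨fun _ => trivial, fun _ => trivial, fun _ _ => trivial⟩⟩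

private def hh (P : Type) [TopologicalSpace P] (x : P) : {y : P // TT P x y} ≃ₜ P where
  toFun y := y.1
  invFun y := ⟨y, trivial⟩
  left_inv _ := rfl
  right_inv _ := rfl
  continuous_toFun := continuous_subtype_val
  continuous_invFun := continuous_id.subtype_mk _

theorem exists_coh (P : Type) [TopologicalSpace P] [PolishSpace P] [MeasurableSpace P] [BorelSpace P]
    [Nonempty P] : ∃ D : Dat0 P (TT P), ∀ (p : P) (A : P → Prop),
      {y : {y : P // TT P p y} | A y.1} ∈ @residual _ (D.σ p) ↔ {q : P | A q} ∈ residual P := by
  have hne : (countableBasis P).Nonempty := by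
    by_contra h
    rw [Set.not_nonempty_iff_eq_empty] at h
    obtain ⟨x⟩ := ‹Nonempty P›
    obtain ⟨U, hU, _⟩ := (isBasis_countableBasis P).exists_subset_of_mem_open (mem_univ x) isOpen_univ
    rw [h] at hU
    exact hU
  obtain ⟨f, hf⟩ := (countable_countableBasis P).exists_eq_range hne
  have hfo : ∀ n, IsOpen (f n) := fun n => isOpen_of_mem_countableBasis (by rw [hf]; exact ⟨n, rfl⟩)
  have : BaireSpace P := by
    let _ := upgradeIsCompletelyMetrizable P
    infer_instance
  refine ⟨{ σ := fun x => inferInstanceAs (TopologicalSpace {y : P // TT P x y})
            t0 := fun x => inferInstanceAs (T0Space {y : P // TT P x y})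
            baire := fun x => (hh P x).symm.baireSpace
            O := fun n _ => f n
            e := fun n _ => denseSeq P n
            mF := MeasurableSet.const True
            mO := fun n => (hfo n).measurableSet.preimage measurable_snd
            base := fun x => ?_
            me := fun _ => measurable_const
            dense := fun x => ?_ }, fun p A => ?_⟩
  · have h1 := (isBasis_countableBasis P).isInducing (hh P x).isInducing
    rw [hf, ← range_comp] at h1
    exact h1
  · have h1 := (denseRange_denseSeq P).preimage (hh P x).isOpenMap
    refine h1.mono ?_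
    rintro y ⟨i, hi⟩
    exact ⟨i, hi.symm⟩
  · have h1 := (hh P p).residual_map_eq
    rw [← h1, Filter.mem_map]
    rfl

end Pool.Agent.H56.GI
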