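import Pool.Agent.H56.GI.Def
set_option autoImplicit false

/-!
# H56/GI/Cq2: measurability for `H2`, `gen2`

Proof. `mH2`: preimages of `T.mH`, `G.mH` under measurable maps. `cq2`: the set
`{r : Q × P | G.gen (r.2, (π r.1).2) (A r.1)}` is measurable by `G.cq (Q × P)`; then `T.cq Q (fun _ => p)`.
-/

namespace Pool.Agent.H56.GI

open Set Topology TopologicalSpace Pool.Agent.H93.EO Pool.Agent.H56.MG

variable {P X : Type} [MeasurableSpace P] [MeasurableSpace X] {F : Setoid X}

theorem mH2 (G : PG0 (P × X) (fun a b => FP P F a b)) (T : PG0 P (fun _ _ => True)) (p : P) (n : ℕ) :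
    MeasurableSet {r : (P × X) × (P × X) | r.2 ∈ H2 G T p n r.1} := by
  have h1 : Measurable fun r : (P × X) × (P × X) => (p, r.2.1) :=
    measurable_const.prodMk (measurable_fst.comp measurable_snd)
  have h2 : Measurable fun r : (P × X) × (P × X) => ((r.2.1, r.1.2), r.2) :=
    ((measurable_fst.comp measurable_snd).prodMk (measurable_snd.comp measurable_fst)).prodMk measurable_snd
  exact (h1 (T.mH (Nat.unpair n).1)).inter (h2 (G.mH (Nat.unpair n).2))

theorem cq2 [StandardBorelSpace P] [StandardBorelSpace X] (G : PG0 (P × X) (fun a b => FP P F a b))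
    (T : PG0 P (fun _ _ => True)) (p : P) (Q : Type) [MeasurableSpace Q] [StandardBorelSpace Q]
    (π : Q → P × X) (hπ : Measurable π) (A : Q → P × X → Prop)
    (hA : MeasurableSet {r : Q × (P × X) | A r.1 r.2}) :
    MeasurableSet {r : Q | gen2 G T p (π r) (A r)} := by
  have h1 : MeasurableSet {s : Q × P | G.gen (s.2, (π s.1).2) (A s.1)} := by
    refine G.cq (Q × P) (fun s => (s.2, (π s.1).2)) ?_ (fun s z => A s.1 z) ?_
    · exact measurable_snd.prodMk (measurable_snd.comp (hπ.comp measurable_fst))
    · have h : Measurable fun q : (Q × P) × (P × X) => (q.1.1, q.2) :=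
        (measurable_fst.comp measurable_fst).prodMk measurable_snd
      exact h hA
  exact T.cq Q (fun _ => p) measurable_const (fun r q => G.gen (q, (π r).2) (A r)) h1

end Pool.Agent.H56.GI
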