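import Pool.Agent.H56.MG.Fin
set_option autoImplicit false

/-!
# H56/GI/Def: category structures of the points, no invariance (definitions)
-/

namespace Pool.Agent.H56.GI

open Set Topology TopologicalSpace Pool.Agent.H93.EO Pool.Agent.H56.MG

/-- topologies of the points on the classes -/
structure Dat0 (X : Type) [MeasurableSpace X] (F : Setoid X) where
  /-- the topology of the point `x` on the class of `x` -/
  σ : ∀ x : X, TopologicalSpace {y : X // F x y}
  t0 : ∀ x, @T0Space _ (σ x)
  baire : ∀ x, @BaireSpace _ (σ x)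
  /-- the bases -/
  O : ℕ → X → Set X
  /-- the dense sequences -/
  e : ℕ → X → X
  mF : MeasurableSet {p : X × X | F p.1 p.2}
  mO : ∀ n, MeasurableSet {p : X × X | p.2 ∈ O n p.1}
  base : ∀ x, @IsTopologicalBasis _ (σ x) (range fun n => {y | y.1 ∈ O n x})
  me : ∀ i, Measurable (e i)
  dense : ∀ x, @Dense _ (σ x) {y | ∃ i, y.1 = e i x}

/-- the abstract structure: as `PG`, without `inv` and `ku` -/
structure PG0 (X : Type) [MeasurableSpace X] (F : X → X → Prop) where
  /-- the base of the topology of the point `x` -/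
  H : ℕ → X → Set X
  /-- for generic points of the class of `x` -/
  gen : X → (X → Prop) → Prop
  sub : ∀ n x y, y ∈ H n x → F x y
  mono : ∀ x (P Q : X → Prop), (∀ y, F x y → P y → Q y) → gen x P → gen x Q
  nat : ∀ x (P : ℕ → X → Prop), (∀ n, gen x (P n)) → gen x fun y => ∀ n, P n y
  proper : ∀ x, ¬ gen x fun _ => False
  bp : ∀ x (A : Set X), MeasurableSet A →
    gen x fun y => y ∈ A → ∃ n, y ∈ H n x ∧ gen x fun z => z ∈ H n x → z ∈ A
  mH : ∀ n, MeasurableSet {p : X × X | p.2 ∈ H n p.1}
  cq : ∀ (P : Type) [MeasurableSpace P] [StandardBorelSpace P] (π : P → X), Measurable π →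
    ∀ A : P → X → Prop, MeasurableSet {q : P × X | A q.1 q.2} →
      MeasurableSet {p : P | gen (π p) (A p)}
  sel : ∀ B : Set (X × X), MeasurableSet B →
    ∃ s : X → X, Measurable s ∧ ∀ x, (¬ gen x fun y => (x, y) ∉ B) → (x, s x) ∈ B

/-- the quantifiers of the points `x` of `G` and `y` of `T` commute (one direction) -/
def Sw {X Y : Type} [MeasurableSpace X] [MeasurableSpace Y] {F : X → X → Prop} {E : Y → Y → Prop}
    (G : PG0 X F) (T : PG0 Y E) : Prop :=
  ∀ (x : X) (y : Y) (R : X → Y → Prop), MeasurableSet {p : X × Y | R p.1 p.2} →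
    (G.gen x fun a => T.gen y fun b => R a b) → T.gen y fun b => G.gen x fun a => R a b

/-- same parameter, equivalent points -/
def FP (P : Type) {X : Type} (F : Setoid X) : Setoid (P × X) where
  r a b := a.1 = b.1 ∧ F a.2 b.2
  iseqv := ⟨fun a => ⟨rfl, F.refl a.2⟩, fun h => ⟨h.1.symm, F.symm h.2⟩,
    fun h h' => ⟨h.1.trans h'.1, F.trans h.2 h'.2⟩⟩

variable {P X : Type} [MeasurableSpace P] [MeasurableSpace X] {F : Setoid X}

/-- for generic `q` in `P`, for generic `y` in the class with the topology of `(q, x)`: `A (q, y)` -/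
def gen2 (G : PG0 (P × X) (fun a b => FP P F a b)) (T : PG0 P (fun _ _ => True)) (p : P) (a : P × X)
    (A : P × X → Prop) : Prop :=
  T.gen p fun q => G.gen (q, a.2) A

/-- the basic sets -/
def H2 (G : PG0 (P × X) (fun a b => FP P F a b)) (T : PG0 P (fun _ _ => True)) (p : P) (j : ℕ) (a : P × X) :
    Set (P × X) :=
  {z | z.1 ∈ T.H (Nat.unpair j).1 p ∧ z ∈ G.H (Nat.unpair j).2 (z.1, a.2)}

end Pool.Agent.H56.GI
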