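import Pool.Agent.H56.GI.Def
set_option autoImplicit false

/-!
# H56/GI/Kk2: the quantifier `gen2` commutes with itself

Proof. Write `C q` for `T.gen p`, `G q` for `G.gen (q, a.2)`. Start with
`C q1, G q1 y, C q2, G q2 w, R y w`. For every `q1` swap `G q1 y` and `C q2` (`hGT`, the predicate
`(y, q2) ↦ G q2 w, R y w` is measurable by `G.cq`); then `G q1 y` and `G q2 w` (`hGG`); then `C q1` and
`C q2` (`hTT`, the predicate `(q1, q2) ↦ G q2 w, G q1 y, R y w` is measurable by `G.cq` twice); then for
every `q2` swap `C q1` and `G q2 w` (`hTG`, the predicate `(q1, w) ↦ G q1 y, R y w` is measurable).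
The steps under a quantifier are by `T.mono`.
-/

namespace Pool.Agent.H56.GI

open Set Topology TopologicalSpace Pool.Agent.H93.EO Pool.Agent.H56.MG

variable {P X : Type} [MeasurableSpace P] [MeasurableSpace X] {F : Setoid X}

theorem ku2 [StandardBorelSpace P] [StandardBorelSpace X] (G : PG0 (P × X) (fun a b => FP P F a b))
    (T : PG0 P (fun _ _ => True)) (hGG : Sw G G) (hGT : Sw G T) (hTG : Sw T G) (hTT : Sw T T)
    (p : P) (a : P × X) (R : P × X → P × X → Prop)
    (hR : MeasurableSet {r : (P × X) × (P × X) | R r.1 r.2})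
    (h : gen2 G T p a fun y => gen2 G T p a fun w => R y w) :
    gen2 G T p a fun w => gen2 G T p a fun y => R y w := by
  -- the predicate of `(y, q2)`
  have mA : MeasurableSet {r : (P × X) × P | G.gen (r.2, a.2) (R r.1)} := by
    have h1 : Measurable fun r : (P × X) × P => (r.2, a.2) := measurable_snd.prodMk measurable_const
    have h2 : Measurable fun q : ((P × X) × P) × (P × X) => (q.1.1, q.2) :=
      (measurable_fst.comp measurable_fst).prodMk measurable_snd
    exact G.cq ((P × X) × P) (fun r => (r.2, a.2)) h1 (fun r z => R r.1 z) (h2 hR)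
  -- the predicate of `(q1, w)`, with a parameter
  have mB : ∀ (Z : Type) [MeasurableSpace Z] [StandardBorelSpace Z] (f : Z → P), Measurable f →
      MeasurableSet {q : Z × (P × X) | G.gen (f q.1, a.2) fun y => R y q.2} := by
    intro Z _ _ f hf
    have h1 : Measurable fun q : Z × (P × X) => (f q.1, a.2) := (hf.comp measurable_fst).prodMk measurable_const
    have h2 : Measurable fun z : (Z × (P × X)) × (P × X) => (z.2, z.1.2) :=
      measurable_snd.prodMk (measurable_snd.comp measurable_fst)
    exact G.cq (Z × (P × X)) (fun q => (f q.1, a.2)) h1 (fun q y => R y q.2) (h2 hR)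
  -- the predicate of `(q1, q2)`
  have mC : MeasurableSet {r : P × P | G.gen (r.2, a.2) fun w => G.gen (r.1, a.2) fun y => R y w} := by
    have h1 : Measurable fun r : P × P => (r.2, a.2) := measurable_snd.prodMk measurable_const
    exact G.cq (P × P) (fun r => (r.2, a.2)) h1 (fun r w => G.gen (r.1, a.2) fun y => R y w)
      (mB (P × P) Prod.fst measurable_fst)
  have h1 : T.gen p fun q1 => T.gen p fun q2 => G.gen (q2, a.2) fun w => G.gen (q1, a.2) fun y => R y w := by
    refine T.mono p _ _ (fun q1 _ hq1 => ?_) h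
    have h2 := hGT (q1, a.2) p (fun y q2 => G.gen (q2, a.2) (R y)) mA hq1
    refine T.mono p _ _ (fun q2 _ hq2 => ?_) h2
    exact hGG (q1, a.2) (q2, a.2) R hR hq2
  have h2 : T.gen p fun q2 => T.gen p fun q1 => G.gen (q2, a.2) fun w => G.gen (q1, a.2) fun y => R y w :=
    hTT p p (fun q1 q2 => G.gen (q2, a.2) fun w => G.gen (q1, a.2) fun y => R y w) mC h1
  refine T.mono p _ _ (fun q2 _ hq2 => ?_) h2
  exact hTG p (q2, a.2) (fun q1 w => G.gen (q1, a.2) fun y => R y w) (mB P id measurable_id) hq2

end Pool.Agent.H56.GI
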