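import Pool.Agent.H56.GI.Pair
set_option autoImplicit false

/-!
# H56/GI/Kt: the quantifiers of two structures commute

Proof. `exists_pairs D`, `exists_pairs D'` give `C`, `C'` with `gn C (mk2 (F.refl x)) A ↔ ... residual`,
so with `S = genOf C`, `S' = genOf C'` (`(genOf C).gen = gn C` by `rfl`): `G.gen x P ↔
S.gen (mk2 (F.refl x)) (fun z => P z.1.2)`, and the same for `T`. Then `hku` for
`R' z w = R z.1.2 w.1.2` on `P2 F × P2 E`; see `exists_pg_of` in H56/MG/Pg.lean. -/

namespace Pool.Agent.H56.GI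

open Set Topology TopologicalSpace Pool.Agent.H93.EO Pool.Agent.H56.MG

theorem sw_of {X Y : Type} [MeasurableSpace X] [MeasurableSpace Y] [StandardBorelSpace X]
    [StandardBorelSpace Y] {F : Setoid X} {E : Setoid Y} (D : Dat0 X F) (D' : Dat0 Y E)
    (G : PG0 X (fun x y => F x y)) (T : PG0 Y (fun x y => E x y))
    (hG : ∀ (x : X) (P : X → Prop), G.gen x P ↔ {y : {y : X // F x y} | P y.1} ∈ @residual _ (D.σ x))
    (hT : ∀ (x : Y) (P : Y → Prop), T.gen x P ↔ {y : {y : Y // E x y} | P y.1} ∈ @residual _ (D'.σ x))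
    (hku : ∀ [StandardBorelSpace (P2 F)] [StandardBorelSpace (P2 E)]
      (S : GenStr (P2 F) (fun z w => E2 F z w)) (S' : GenStr (P2 E) (fun z w => E2 E z w)) (x : P2 F)
      (y : P2 E) (R : P2 F → P2 E → Prop), MeasurableSet {p : P2 F × P2 E | R p.1 p.2} →
      (S.gen x fun a => S'.gen y fun b => R a b) → S'.gen y fun b => S.gen x fun a => R a b) :
    Sw G T := by
  obtain ⟨C, hC⟩ := exists_pairs D
  obtain ⟨C', hC'⟩ := exists_pairs D'
  have : StandardBorelSpace (P2 F) := D.mF.standardBorel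
  have : StandardBorelSpace (P2 E) := D'.mF.standardBorel
  have hgen : ∀ (x : X) (P : X → Prop), G.gen x P ↔
      (genOf C).gen (mk2 (F.refl x)) (fun z => P z.1.2) := fun x P =>
    (hG x P).trans (hC x fun z => P z.1.2).symm
  have hgen' : ∀ (x : Y) (P : Y → Prop), T.gen x P ↔
      (genOf C').gen (mk2 (E.refl x)) (fun z => P z.1.2) := fun x P =>
    (hT x P).trans (hC' x fun z => P z.1.2).symm
  generalize genOf C = S at hgen
  generalize genOf C' = S' at hgen'
  intro x y R hR h
  have h2 : Measurable fun q : P2 F × P2 E => (q.1.1.2, q.2.1.2) :=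
    ((measurable_snd.comp measurable_subtype_coe).comp measurable_fst).prodMk
      ((measurable_snd.comp measurable_subtype_coe).comp measurable_snd)
  have h3 : S.gen (mk2 (F.refl x)) fun a => S'.gen (mk2 (E.refl y)) fun b => R a.1.2 b.1.2 := by
    have h4 := (hgen x _).1 h
    simp only [hgen'] at h4
    exact h4
  have h5 := hku S S' (mk2 (F.refl x)) (mk2 (E.refl y)) (fun z w => R z.1.2 w.1.2) (h2 hR) h3
  refine (hgen' y _).2 ?_
  simp only [hgen]
  exact h5

end Pool.Agent.H56.GI
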