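import Pool.Agent.H56.GI.Def
set_option autoImplicit false

/-!
# H56/GI/Rest: the easy fields for `gen2`
-/

namespace Pool.Agent.H56.GI

open Set Topology TopologicalSpace Pool.Agent.H93.EO Pool.Agent.H56.MG

variable {P X : Type} [MeasurableSpace P] [MeasurableSpace X] {F : Setoid X}

theorem sub2 (G : PG0 (P × X) (fun a b => FP P F a b)) (T : PG0 P (fun _ _ => True)) (p : P) (n : ℕ)
    (a b : P × X) (h : b ∈ H2 G T p n a) : F a.2 b.2 := by
  exact (G.sub _ _ _ h.2).2

theorem mono2 (G : PG0 (P × X) (fun a b => FP P F a b)) (T : PG0 P (fun _ _ => True)) (p : P) (a : P × X)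
    (A B : P × X → Prop) (h : ∀ b, F a.2 b.2 → A b → B b) (hA : gen2 G T p a A) : gen2 G T p a B := by
  exact T.mono p _ _ (fun q _ hq => G.mono (q, a.2) _ _ (fun y hy hy2 => h y hy.2 hy2) hq) hA

theorem nat2 (G : PG0 (P × X) (fun a b => FP P F a b)) (T : PG0 P (fun _ _ => True)) (p : P) (a : P × X)
    (A : ℕ → P × X → Prop) (h : ∀ n, gen2 G T p a (A n)) : gen2 G T p a fun y => ∀ n, A n y := by
  exact T.mono p _ _ (fun q _ hq => G.nat (q, a.2) A hq) (T.nat p (fun n q => G.gen (q, a.2) (A n)) h)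

theorem proper2 (G : PG0 (P × X) (fun a b => FP P F a b)) (T : PG0 P (fun _ _ => True)) (p : P)
    (a : P × X) : ¬ gen2 G T p a fun _ => False := by
  intro h
  exact T.proper p (T.mono p _ _ (fun q _ hq => G.proper (q, a.2) hq) h)

/-- intersect the two generic sets of `q` (`T.and` is not available: use `T.nat` with `if n = 0 ...` as in
`PG.and` of H56/MG/Bas.lean) -/
theorem inv2 (G : PG0 (P × X) (fun a b => FP P F a b)) (T : PG0 P (fun _ _ => True)) (p : P)
    (hI : ∀ x x', F x x' → T.gen p fun q => ∀ A : P × X → Prop, G.gen (q, x) A → G.gen (q, x') A)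
    (a b : P × X) (A : P × X → Prop) (h : F a.2 b.2) (hA : gen2 G T p a A) : gen2 G T p b A := by
  have h1 := hI a.2 b.2 h
  have h2 : T.gen p fun q => ∀ n : ℕ, if n = 0 then (∀ A : P × X → Prop, G.gen (q, a.2) A → G.gen (q, b.2) A)
      else G.gen (q, a.2) A := by
    refine T.nat p (fun n q => if n = 0 then (∀ A : P × X → Prop, G.gen (q, a.2) A → G.gen (q, b.2) A)
      else G.gen (q, a.2) A) ?_
    intro n
    by_cases hn : n = 0
    · refine T.mono p _ _ (fun q _ hq => ?_) h1
      rw [if_pos hn]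
      exact hq
    · refine T.mono p _ _ (fun q _ hq => ?_) hA
      rw [if_neg hn]
      exact hq
  refine T.mono p _ _ (fun q _ hq => ?_) h2
  have h3 := hq 0
  have h4 := hq 1
  rw [if_pos rfl] at h3
  rw [if_neg one_ne_zero] at h4
  exact h3 A h4

end Pool.Agent.H56.GI
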