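import Pool.Agent.H56.GI.Def
set_option autoImplicit false

/-!
# H56/GI/Tr: from topologies `σ x q` on the class of `x` to the structure on `P × X`

The class of `(q, x)` for `FP P F` is `{q} × [x]`; the topology is the one of `σ x q` transported by
`y ↦ (q, y)` (`TopologicalSpace.induced` by the inverse bijection; see H56/MG/Pair.lean: `pairEq`, `tp`,
`homP`, `catP`). `O n (q, x) = {z | z.2 ∈ O n x q}`, `e i (q, x) = (q, e i x q)`.
`inv_pt`: as `dat_inv` in H56/MG/Inv.lean, for two topologies on two classes of one relation.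
-/

namespace Pool.Agent.H56.GI

open Set Topology TopologicalSpace Pool.Agent.H93.EO Pool.Agent.H56.MG

/-- the class of `a` in `P × X` is in bijection with the class of `a.2` -/
private def trEq {P X : Type} (F : Setoid X) (a : P × X) :
    {z : P × X // FP P F a z} ≃ {y : X // F a.2 y} where
  toFun z := ⟨z.1.2, z.2.2⟩
  invFun y := ⟨(a.1, y.1), ⟨rfl, y.2⟩⟩
  left_inv z := by
    apply Subtype.ext
    exact Prod.ext z.2.1 rfl
  right_inv y := rfl

/-- the transported topology -/
private def trTop {P X : Type} {F : Setoid X} (σ : ∀ (x : X) (_ : P), TopologicalSpace {y : X // F x y})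
    (a : P × X) : TopologicalSpace {z : P × X // FP P F a z} :=
  TopologicalSpace.induced (trEq F a) (σ a.2 a.1)

/-- the homeomorphism -/
private def trHom {P X : Type} {F : Setoid X} (σ : ∀ (x : X) (_ : P), TopologicalSpace {y : X // F x y})
    (a : P × X) :
    @Homeomorph {z : P × X // FP P F a z} {y : X // F a.2 y} (trTop σ a) (σ a.2 a.1) :=
  letI := trTop σ a
  letI := σ a.2 a.1
  (trEq F a).toHomeomorphOfIsInducing ⟨rfl⟩

theorem exists_tr {P X : Type} [MeasurableSpace P] [StandardBorelSpace P] [MeasurableSpace X]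
    [StandardBorelSpace X] (F : Setoid X) (hF : MeasurableSet {p : X × X | F p.1 p.2})
    (σ : ∀ (x : X) (_ : P), TopologicalSpace {y : X // F x y})
    (hT : ∀ x q, @T0Space _ (σ x q)) (hB : ∀ x q, @BaireSpace _ (σ x q))
    (O : ℕ → X → P → Set X) (hO : ∀ n, MeasurableSet {r : (X × P) × X | r.2 ∈ O n r.1.1 r.1.2})
    (hbase : ∀ x q, @IsTopologicalBasis _ (σ x q) (range fun n => {y | y.1 ∈ O n x q}))
    (e : ℕ → X → P → X) (he : ∀ i, Measurable fun r : X × P => e i r.1 r.2)
    (hd : ∀ x q, @Dense _ (σ x q) {y | ∃ i, y.1 = e i x q}) :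
    ∃ D : Dat0 (P × X) (FP P F), ∀ (x : X) (q : P) (A : P × X → Prop),
      {y : {y : P × X // FP P F (q, x) y} | A y.1} ∈ @residual _ (D.σ (q, x)) ↔
      {y : {y : X // F x y} | A (q, y.1)} ∈ @residual _ (σ x q) := by
  refine ⟨{ σ := trTop σ
            t0 := ?_
            baire := ?_
            O := fun n a => {z | z.2 ∈ O n a.2 a.1}
            e := fun i a => (a.1, e i a.2 a.1)
            mF := ?_
            mO := ?_
            base := ?_
            me := ?_
            dense := ?_ }, ?_⟩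
  · intro a
    letI := trTop σ a
    letI := σ a.2 a.1
    haveI := hT a.2 a.1
    exact (trHom σ a).symm.t0Space
  · intro a
    letI := trTop σ a
    letI := σ a.2 a.1
    haveI := hB a.2 a.1
    exact (trHom σ a).isOpenEmbedding.baireSpace
  · have h1 : MeasurableSet {p : (P × X) × (P × X) | p.1.1 = p.2.1} :=
      measurableSet_eq_fun (measurable_fst.comp measurable_fst) (measurable_fst.comp measurable_snd)
    have h2 : MeasurableSet {p : (P × X) × (P × X) | F p.1.2 p.2.2} :=
      ((measurable_snd.comp measurable_fst).prodMk (measurable_snd.comp measurable_snd)) hF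
    exact h1.inter h2
  · intro n
    exact (((measurable_snd.comp measurable_fst).prodMk (measurable_fst.comp measurable_fst)).prodMk
      (measurable_snd.comp measurable_snd)) (hO n)
  · intro a
    letI := trTop σ a
    letI := σ a.2 a.1
    have h1 : IsTopologicalBasis (range fun n => {y : {y : X // F a.2 y} | y.1 ∈ O n a.2 a.1}) :=
      hbase a.2 a.1
    have h2 := h1.isInducing (trHom σ a).isInducing
    have e : (range fun n => {y : {y : P × X // FP P F a y} |
        y.1 ∈ ({z : P × X | z.2 ∈ O n a.2 a.1} : Set (P × X))}) =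
        preimage (trHom σ a) '' (range fun n => {y : {y : X // F a.2 y} | y.1 ∈ O n a.2 a.1}) := by
      rw [← range_comp]
      rfl
    rw [e]
    exact h2
  · intro i
    exact measurable_fst.prodMk ((he i).comp (measurable_snd.prodMk measurable_fst))
  · intro a
    letI := trTop σ a
    letI := σ a.2 a.1
    have h1 := (hd a.2 a.1).preimage (trHom σ a).isOpenMap
    refine h1.mono ?_
    rintro y ⟨i, hi⟩
    refine ⟨i, ?_⟩
    have h4 : y.1.2 = e i a.2 a.1 := hi
    exact Prod.ext y.2.1.symm h4
  · intro x q A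
    change {y : {y : P × X // FP P F (q, x) y} | A y.1} ∈ @residual _ (trTop σ (q, x)) ↔ _
    letI := trTop σ (q, x)
    letI := σ x q
    rw [← (trHom σ (q, x)).residual_map_eq, Filter.mem_map]
    have e : {y : {y : P × X // FP P F (q, x) y} | A y.1} =
        (trHom σ (q, x)) ⁻¹' {y : {y : X // F x y} | A (q, y.1)} := by
      ext y
      have h3 : (trEq F (q, x)).symm (trEq F (q, x) y) = y := (trEq F (q, x)).left_inv y
      change A y.1 ↔ A ((trEq F (q, x)).symm (trEq F (q, x) y)).1
      rw [h3]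
    rw [e]

theorem inv_pt {X : Type} [MeasurableSpace X] {F : Setoid X} (x x' : X) (h : F x x')
    (σ : TopologicalSpace {y : X // F x y}) (σ' : TopologicalSpace {y : X // F x' y})
    (O : ℕ → Set X) (hO : ∀ n, MeasurableSet (O n))
    (hbase : @IsTopologicalBasis _ σ (range fun n => {y | y.1 ∈ O n}))
    (hI : ∀ A : Set X, MeasurableSet A → {y : {y : X // F x y} | y.1 ∈ A} ∈ @residual _ σ →
      {y : {y : X // F x' y} | y.1 ∈ A} ∈ @residual _ σ') (A : X → Prop)
    (hA : {y : {y : X // F x y} | A y.1} ∈ @residual _ σ) :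
    {y : {y : X // F x' y} | A y.1} ∈ @residual _ σ' := by
  letI : TopologicalSpace {y : X // F x y} := σ
  obtain ⟨S, hSo, hSd, hSc, hSP⟩ := mem_residual_iff.1 hA
  -- the Borel sets
  obtain ⟨B, hB⟩ : ∃ B : Set {y : X // F x y} → Set X, B = fun t =>
      ⋃ n : ℕ, ⋃ _ : {y : {y : X // F x y} | y.1 ∈ O n} ⊆ t, {y : X | y ∈ O n} :=
    ⟨_, rfl⟩
  have hBm : ∀ t, MeasurableSet (B t) := by
    intro t
    rw [hB]
    exact MeasurableSet.iUnion fun n => MeasurableSet.iUnion fun _ => hO n
  have hBt : ∀ t ∈ S, ∀ y : {y : X // F x y}, y.1 ∈ B t ↔ y ∈ t := by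
    intro t ht y
    rw [hB]
    simp only [mem_iUnion, mem_setOf_eq, exists_prop]
    constructor
    · rintro ⟨n, hn, hy⟩
      exact hn hy
    · intro hy
      obtain ⟨v, ⟨n, rfl⟩, hyv, hvt⟩ := hbase.exists_subset_of_mem_open hy (hSo t ht)
      exact ⟨n, hvt, hyv⟩
  have hAll : MeasurableSet (⋂ t ∈ S, B t) := MeasurableSet.biInter hSc fun t _ => hBm t
  have hres : {y : {y : X // F x y} | y.1 ∈ ⋂ t ∈ S, B t} ∈ @residual _ σ := by
    refine mem_residual_iff.2 ⟨S, hSo, hSd, hSc, fun y hy => ?_⟩
    rw [mem_setOf_eq, mem_iInter₂]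
    intro t ht
    exact (hBt t ht y).2 (hy t ht)
  refine Filter.mem_of_superset (hI _ hAll hres) fun y hy => ?_
  have hxy : F x y.1 := F.trans h y.2
  have h1 : (⟨y.1, hxy⟩ : {y : X // F x y}) ∈ ⋂₀ S := by
    intro t ht
    rw [mem_setOf_eq, mem_iInter₂] at hy
    exact (hBt t ht ⟨y.1, hxy⟩).1 (hy t ht)
  exact hSP h1

end Pool.Agent.H56.GI
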