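import Pool.Agent.H56.GI.Bp2
import Pool.Agent.H56.GI.Cq2
import Pool.Agent.H56.GI.Kk2
import Pool.Agent.H56.GI.Sel2
import Pool.Agent.H56.GI.Ch
import Pool.Agent.H56.GI.Rest
import Pool.Agent.H56.GI.Kt
import Pool.Agent.H56.GI.Tr
import Pool.Agent.H56.GI.Coh
import Pool.Agent.H56.GI.Ku2
set_option autoImplicit false

/-!
# H56/GI/Fin: the theorem
-/

namespace Pool.Agent.H56.GI

open Set Topology TopologicalSpace Pool.Agent.H93.EO Pool.Agent.H56.MG

theorem main_gi (P X : Type) [TopologicalSpace P] [PolishSpace P] [MeasurableSpace P] [BorelSpace P]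
    [Nonempty P] [MeasurableSpace X] [StandardBorelSpace X] (F : Setoid X)
    (hF : MeasurableSet {p : X × X | F p.1 p.2})
    (σ : ∀ (x : X) (_ : P), TopologicalSpace {y : X // F x y})
    (hT : ∀ x q, @T0Space _ (σ x q)) (hB : ∀ x q, @BaireSpace _ (σ x q))
    (O : ℕ → X → P → Set X) (hO : ∀ n, MeasurableSet {r : (X × P) × X | r.2 ∈ O n r.1.1 r.1.2})
    (hbase : ∀ x q, @IsTopologicalBasis _ (σ x q) (range fun n => {y | y.1 ∈ O n x q}))
    (e : ℕ → X → P → X) (he : ∀ i, Measurable fun r : X × P => e i r.1 r.2)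
    (hd : ∀ x q, @Dense _ (σ x q) {y | ∃ i, y.1 = e i x q})
    (hI : ∀ x x', F x x' → ∀ᶠ q in residual P, ∀ A : Set X, MeasurableSet A →
      {y : {y : X // F x y} | y.1 ∈ A} ∈ @residual _ (σ x q) →
      {y : {y : X // F x' y} | y.1 ∈ A} ∈ @residual _ (σ x' q)) :
    ∃ (G Z : Type) (_ : TopologicalSpace G) (_ : Group G) (_ : IsTopologicalGroup G)
      (_ : PolishSpace G) (_ : TopologicalSpace Z) (_ : PolishSpace Z) (_ : MeasurableSpace Z)
      (_ : BorelSpace Z) (_ : MulAction G Z) (_ : ContinuousSMul G Z) (f : X → Z),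
      Measurable f ∧ ∀ x x' : X, F x x' ↔ ∃ g : G, g • f x = f x' := by
  obtain ⟨D, hD⟩ := exists_tr F hF σ hT hB O hO hbase e he hd
  obtain ⟨C, hC⟩ := exists_coh P
  obtain ⟨G, hG⟩ := exists_pg0 D
  obtain ⟨T, hT'⟩ := exists_pg0 C
  obtain ⟨p⟩ := (inferInstance : Nonempty P)
  have hGG : Sw G G := sw_of D D G G hG hG fun S S' x y R hR h => ku_two S S' x y R hR h
  have hGT : Sw G T := sw_of D C G T hG hT' fun S S' x y R hR h => ku_two S S' x y R hR h
  have hTG : Sw T G := sw_of C D T G hT' hG fun S S' x y R hR h => ku_two S S' x y R hR h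
  have hTT : Sw T T := sw_of C C T T hT' hT' fun S S' x y R hR h => ku_two S S' x y R hR h
  have hI2 : ∀ x x', F x x' → T.gen p fun q => ∀ A : P × X → Prop, G.gen (q, x) A → G.gen (q, x') A := by
    intro x x' h
    refine (hT' p (fun q => ∀ A : P × X → Prop, G.gen (q, x) A → G.gen (q, x') A)).2
      ((hC p (fun q => ∀ A : P × X → Prop, G.gen (q, x) A → G.gen (q, x') A)).2 ?_)
    refine Filter.mem_of_superset (hI x x' h) fun q hq => ?_
    intro A hA
    refine (hG (q, x') A).2 ((hD x' q A).2 ?_)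
    refine inv_pt x x' h (σ x q) (σ x' q) (fun n => O n x q) (fun n => ?_) (hbase x q) hq
      (fun y => A (q, y)) ((hD x q A).1 ((hG (q, x) A).1 hA))
    exact measurable_prodMk_left (x := ((x, q) : X × P)) (hO n)
  have hF' : MeasurableSet {r : (P × X) × (P × X) | F r.1.2 r.2.2} :=
    ((measurable_snd.comp measurable_fst).prodMk (measurable_snd.comp measurable_snd)) hF
  have hE : Equivalence fun a b : P × X => F a.2 b.2 :=
    ⟨fun a => F.refl a.2, fun h => F.symm h, fun h h' => F.trans h h'⟩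
  obtain ⟨Gr, Zr, i1, i2, i3, i4, i5, i6, i7, i8, i9, i10, f, hf, h1⟩ := main_pg hE hF'
    { H := H2 G T p
      gen := gen2 G T p
      sub := fun n a b h => sub2 G T p n a b h
      mono := fun a A B h hA => mono2 G T p a A B h hA
      nat := fun a A h => nat2 G T p a A h
      proper := fun a => proper2 G T p a
      inv := fun a b A h hA => inv2 G T p hI2 a b A h hA
      bp := fun a A hA => bp2 G T p a A hA
      mH := fun n => mH2 G T p n
      cq := fun Q _ _ π hπ A hA => cq2 G T p Q π hπ A hA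
      ku := fun a R hR h => ku2 G T hGG hGT hTG hTT p a R hR h
      sel := fun B hB => sel2 G T (ch_of D G hG) (ch_of C T hT') p B hB }
  refine ⟨Gr, Zr, i1, i2, i3, i4, i5, i6, i7, i8, i9, i10, fun x => f (p, x),
    hf.comp (measurable_const.prodMk measurable_id), fun x x' => ?_⟩
  rw [← h1]

end Pool.Agent.H56.GI
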